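import Pool.Agent.Lib.MP_ee21b2_co.Top

set_option autoImplicit false

namespace Pool.Agent.Results.MP_ee21b2_co.Full

open Finset

/-- The conjectured inequality, in full: the bound is `(t - 1)` times the largest row sum times
the largest column sum. -/
theorem result (n k : ℕ) (M : Matrix (Fin n) (Fin k) ℝ) (hM : ∀ a b, 0 ≤ M a b)
    (t : ℕ) (ht : Odd t) (x : Fin t → Fin n) (y : Fin t → Fin k)
    (hinj : Function.Injective fun i => (x i, y i)) (hz : ∀ i, M (x i) (y i) = 0) :
    ∑ i, ∑ j, M (x i) (y j) * M (x j) (y i)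
      ≤ ((t : ℝ) - 1) * (⨆ a, ∑ b, M a b) * (⨆ b, ∑ a, M a b) := by
  have hR : ∀ a, ∑ b, M a b ≤ ⨆ a, ∑ b, M a b := fun a =>
    le_ciSup (f := fun a => ∑ b, M a b) (Finite.bddAbove_range _) a
  have hC : ∀ b, ∑ a, M a b ≤ ⨆ b, ∑ a, M a b := fun b =>
    le_ciSup (f := fun b => ∑ a, M a b) (Finite.bddAbove_range _) b
  generalize (⨆ a, ∑ b, M a b) = R at hR ⊢
  generalize (⨆ b, ∑ a, M a b) = C at hC ⊢
  rcases le_total R C with h | h
  · have := Pool.Agent.Lib.MP_ee21b2_co.main_le M hM (by simpa using ht) x y hinj hz R C hR hC h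
    rwa [Fintype.card_fin] at this
  · have := Pool.Agent.Lib.MP_ee21b2_co.main_le (fun b a => M a b) (fun b a => hM a b)
      (by simpa using ht) y x
      (fun i j e => hinj (Prod.ext (congrArg Prod.snd e) (congrArg Prod.fst e))) hz C R hC hR h
    rw [Fintype.card_fin] at this
    calc _ = ∑ i, ∑ j, M (x j) (y i) * M (x i) (y j) :=
          sum_congr rfl fun i _ => sum_congr rfl fun j _ => mul_comm _ _
      _ ≤ _ := this
      _ = _ := by ring

end Pool.Agent.Results.MP_ee21b2_co.Full
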